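import Mathlib

/-!
Extended binary quadratic residue codes of length `90`: for `p = 89` and the permutation
`x ↦ (x + 1)/(10 x)` of `PSL₂(89)`, both circulants `L` and `R` are singular for every codeword.
-/

open Polynomial

namespace Pool.Agent.Results.MP_6ea9cb_lc.BothSingular

/-- The nonzero quadratic residues modulo `p`. -/
def residues (p : ℕ) [NeZero p] : Finset (ZMod p) :=
  ((Finset.univ : Finset (ZMod p)).image fun i => i * i).erase 0

/-- The generator polynomial `∏_{r ∈ Q} (x + α ^ r)`. -/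
noncomputable def genPoly (p : ℕ) [NeZero p] {K : Type} [Field K] (α : K) : K[X] :=
  ∏ r ∈ residues p, (X + C (α ^ r.val))

/-- The quadratic residue code: words whose polynomial is divisible by the generator
polynomial. -/
def InQR (p : ℕ) [NeZero p] {K : Type} [Field K] (α : K) (c : ZMod p → ZMod 2) : Prop :=
  genPoly p α ∣ ∑ i : ZMod p, C ((c i).val : K) * X ^ i.val

/-- The extended code; the coordinate `∞` is `none`. -/
def InExt (p : ℕ) [NeZero p] {K : Type} [Field K] (α : K) (c : Option (ZMod p) → ZMod 2) : Prop :=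
  InQR p α (fun i => c (some i)) ∧ c none = ∑ i, c (some i)

/-- The map `i ↦ (a i + b)/(c i + d)` on the projective line. -/
def mob (p : ℕ) (a b c d : ZMod p) : Option (ZMod p) → Option (ZMod p)
  | none => if c = 0 then none else some (a * c⁻¹)
  | some i => if c * i + d = 0 then none else some ((a * i + b) * (c * i + d)⁻¹)

/-- The permutation `π` of the projective line belongs to `PSL₂(p)`. -/
def InPSL (p : ℕ) (π : Equiv.Perm (Option (ZMod p))) : Prop :=
  ∃ a b c d : ZMod p, a * d - b * c ≠ 0 ∧ IsSquare (a * d - b * c) ∧ ∀ x, π x = mob p a b c d x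

/-- `π` moves along the two disjoint cycles `(l 0, …, l (k-1))` and `(r 0, …, r (k-1))`. -/
def TwoCycles {X : Type} (k : ℕ) (π : Equiv.Perm X) (l r : ZMod k → X) : Prop :=
  Function.Injective l ∧ Function.Injective r ∧ (∀ i j, l i ≠ r j) ∧
    (∀ i, π (l i) = l (i + 1)) ∧ ∀ i, π (r i) = r (i + 1)

/-- The `k × k` matrix whose row `m` is the word `π ^ m c` read along the cycle `l`, where
`(π c)_{π(x)} = c_x`. -/
def array {X : Type} {k : ℕ} (π : Equiv.Perm X) (c : X → ZMod 2) (l : ZMod k → X) :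
    Matrix (ZMod k) (ZMod k) (ZMod 2) :=
  fun m j => c ((π ^ m.val)⁻¹ (l j))

/-! ### Tables -/

/-- The permutation `x ↦ (x+1)/(10x)` on indices (`89` stands for `∞`). -/
def fwd : Fin 90 → ℕ :=
  ![89, 18, 58, 12, 78, 82, 55, 23, 88, 10, 1, 26, 32, 85, 16, 63, 4, 20, 54, 61, 5, 73, 62, 21,
    65, 77, 47, 39, 57, 40, 36, 38, 51, 74, 59, 83, 76, 79, 35, 64, 7, 70, 41, 3, 80, 27, 15,
    66, 37, 11, 43, 72, 28, 31, 24, 48, 33, 56, 69, 71, 67, 50, 68, 60, 30, 42, 86, 45, 34, 13,
    46, 53, 87, 14, 44, 2, 22, 75, 81, 17, 8, 19, 84, 52, 25, 29, 6, 49, 0, 9]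

/-- Its inverse. -/
def bwd : Fin 90 → ℕ :=
  ![88, 10, 75, 43, 16, 20, 86, 40, 80, 89, 9, 49, 3, 69, 73, 46, 14, 79, 1, 81, 17, 23, 76, 7,
    54, 84, 11, 45, 52, 85, 64, 53, 12, 56, 68, 38, 30, 48, 31, 27, 29, 42, 65, 50, 74, 67, 70,
    26, 55, 87, 61, 32, 83, 71, 18, 6, 57, 28, 2, 34, 63, 19, 22, 15, 39, 24, 47, 60, 62, 58,
    41, 59, 51, 21, 33, 77, 36, 25, 4, 37, 44, 78, 5, 35, 82, 13, 66, 72, 8, 0]

/-- The first cycle. -/
def cycL : Fin 45 → ℕ :=
  ![0, 89, 9, 10, 1, 18, 54, 24, 65, 42, 41, 70, 46, 15, 63, 60, 67, 45, 27, 39, 64, 30, 36, 76,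
    22, 62, 68, 34, 59, 71, 53, 31, 38, 35, 83, 52, 28, 57, 56, 33, 74, 44, 80, 8, 88]

/-- The second cycle. -/
def cycR : Fin 45 → ℕ :=
  ![2, 58, 69, 13, 85, 29, 40, 7, 23, 21, 73, 14, 16, 4, 78, 81, 19, 61, 50, 43, 3, 12, 32, 51,
    72, 87, 49, 11, 26, 47, 66, 86, 6, 55, 48, 37, 79, 17, 20, 5, 82, 84, 25, 77, 75]

/-- Words supported on the first cycle (case 0). -/
def w0l : Fin 3 → ℕ :=
  ![310773396247689377666565633, 938224937819812835293954818, 629869395571388577520583939]

/-- Quotients. -/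
def q0l : Fin 3 → ℕ :=
  ![64411324407, 7503506344321, 7550366008950]

/-- Words supported on the second cycle (case 0). -/
def w0r : Fin 5 → ℕ :=
  ![201035937329651107766468652, 39181474748206951714267184, 151708368511697710950608,
    97319121369425446429219008, 259324107116074555696238604]

/-- Quotients. -/
def q0r : Fin 5 → ℕ :=
  ![8556984839140, 2061248770768, 1235945705472, 498974344392, 8230518394364]

/-- Words supported on the first cycle (case 1). -/
def w1l : Fin 5 → ℕ :=
  ![319177700475676603426537475, 319234382190612972774130946, 1284521369568173738723072,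
    620180568938036349236150784, 618990556664996691305562113]

/-- Quotients. -/
def q1l : Fin 5 → ℕ :=
  ![14830487695101, 14708270071062, 73259464192, 10607783085913, 10620036129458]

/-- Words supported on the second cycle (case 1). -/
def w1r : Fin 3 → ℕ :=
  ![22710526844861208304121964, 295479063726283345765220568, 278822758360725205247801524]

/-- Quotients. -/
def q1r : Fin 3 → ℕ :=
  ![5906586772064, 2949866639012, 8735657389252]

/-- The two factors of `(x ^ 89 - 1)/(x - 1)` over `GF(2)`. -/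
def g : Bool → ℕ
  | false => 24906380995757
  | true => 29660881482731

/-- Cofactors for `g (!a) (x ^ 3)` modulo `g a`. -/
def cof : Bool → ℕ
  | false => 11817792715519
  | true => 16639009304233

/-! ### Evaluation of binary polynomials coded by natural numbers -/

section ev

variable {K : Type} [Field K]

open Classical in
/-- Value at `x` of the binary polynomial coded by `n`. -/
noncomputable def ev (x : K) (n : ℕ) : K :=
  if h : n = 0 then 0 else (if n % 2 = 1 then 1 else 0) + x * ev x (n / 2)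
termination_by n
decreasing_by omega

theorem ev_zero (x : K) : ev x 0 = 0 := by
  rw [ev]
  simp

theorem ev_step (x : K) (n : ℕ) : ev x n = (if n % 2 = 1 then 1 else 0) + x * ev x (n / 2) := by
  rcases Nat.eq_zero_or_pos n with rfl | hn
  · simp [ev_zero]
  · rw [ev, dif_neg (by omega)]

theorem ev_two_mul (x : K) (n : ℕ) : ev x (2 * n) = x * ev x n := by
  rw [ev_step x (2 * n), if_neg (by omega), zero_add]
  congr 2
  omega

theorem ev_one (x : K) : ev x 1 = 1 := by
  rw [ev_step, if_pos rfl, show (1 / 2 : ℕ) = 0 from rfl, ev_zero]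
  simp

theorem ev_pow (x : K) (e : ℕ) : ev x (2 ^ e) = x ^ e := by
  induction e with
  | zero => simpa using ev_one x
  | succ e ih => rw [pow_succ', ev_two_mul, ih, pow_succ']

theorem ev_xor [CharP K 2] (x : K) (m : ℕ) : ∀ a b : ℕ, a < 2 ^ m → b < 2 ^ m →
    ev x (a ^^^ b) = ev x a + ev x b := by
  induction m with
  | zero =>
    intro a b ha hb
    have ha' : a = 0 := by simpa using ha
    have hb' : b = 0 := by simpa using hb
    subst ha' hb'
    simp [ev_zero]
  | succ m ih =>
    intro a b ha hb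
    rw [ev_step x (a ^^^ b), ev_step x a, ev_step x b, Nat.xor_div_two, Nat.xor_mod_two_eq,
      ih (a / 2) (b / 2) (by omega) (by omega)]
    have h2 : (1 : K) + 1 = 0 := CharTwo.add_self_eq_zero 1
    have hm : (a + b) % 2 = (a % 2 + b % 2) % 2 := Nat.add_mod _ _ _
    rw [hm]
    rcases Nat.mod_two_eq_zero_or_one a with ha2 | ha2 <;>
      rcases Nat.mod_two_eq_zero_or_one b with hb2 | hb2 <;> rw [ha2, hb2] <;> simp
    · ring
    · ring
    · ring
    · linear_combination -h2

theorem ev_xor' [CharP K 2] (x : K) (a b : ℕ) : ev x (a ^^^ b) = ev x a + ev x b := by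
  refine ev_xor x (max a b) a b ?_ ?_
  · exact (le_max_left a b).trans_lt Nat.lt_two_pow_self
  · exact (le_max_right a b).trans_lt Nat.lt_two_pow_self

/-- Carry-less multiplication. -/
def cmul : ℕ → ℕ → ℕ → ℕ
  | 0, _, _ => 0
  | f + 1, a, b => (if a % 2 = 1 then b else 0) ^^^ cmul f (a / 2) (2 * b)

theorem ev_cmul [CharP K 2] (x : K) (f : ℕ) : ∀ a b : ℕ, a < 2 ^ f →
    ev x (cmul f a b) = ev x a * ev x b := by
  induction f with
  | zero =>
    intro a b ha
    have ha' : a = 0 := by simpa using ha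
    subst ha'
    simp [cmul, ev_zero]
  | succ f ih =>
    intro a b ha
    rw [cmul, ev_xor', ih (a / 2) (2 * b) (by omega), ev_two_mul, ev_step x a]
    by_cases h : a % 2 = 1
    · simp only [h, if_true]
      ring
    · simp only [h, if_false, ev_zero]
      ring

/-- The polynomial `x ^ e * n(x ^ 3)` with exponents reduced modulo `89`. -/
def m3 : ℕ → ℕ → ℕ → ℕ
  | 0, _, _ => 0
  | f + 1, e, n => (if n % 2 = 1 then 2 ^ e else 0) ^^^ m3 f ((e + 3) % 89) (n / 2)

theorem ev_m3 [CharP K 2] {x : K} (hx : x ^ 89 = 1) (f : ℕ) : ∀ e n : ℕ, n < 2 ^ f →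
    ev x (m3 f e n) = x ^ e * ev (x ^ 3) n := by
  induction f with
  | zero =>
    intro e n hn
    have hn' : n = 0 := by simpa using hn
    subst hn'
    simp [m3, ev_zero]
  | succ f ih =>
    intro e n hn
    rw [m3, ev_xor', ih _ (n / 2) (by omega), ev_step (x ^ 3) n]
    have h1 : x ^ ((e + 3) % 89) = x ^ (e + 3) := (pow_eq_pow_mod _ hx).symm
    rw [h1, pow_add]
    by_cases h : n % 2 = 1
    · simp only [h, if_true, ev_pow]
      ring
    · simp only [h, if_false, ev_zero]
      ring

theorem ev_eq_sum (x : K) (f : ℕ) : ∀ n : ℕ, n < 2 ^ f →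
    ev x n = ∑ i ∈ Finset.range f, (if n.testBit i then x ^ i else 0) := by
  induction f with
  | zero =>
    intro n hn
    have hn' : n = 0 := by simpa using hn
    subst hn'
    simp [ev_zero]
  | succ f ih =>
    intro n hn
    rw [Finset.sum_range_succ', ev_step, ih (n / 2) (by omega), Finset.mul_sum, add_comm]
    congr 1
    · refine Finset.sum_congr rfl fun i _ => ?_
      rw [Nat.testBit_succ]
      by_cases h : (n / 2).testBit i
      · simp only [h, if_true]
        ring
      · simp [h]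
    · rw [Nat.testBit_zero]
      simp

theorem g_lt : ∀ a, g a < 2 ^ 45 := by decide

theorem m3_eq : ∀ a, m3 45 0 (g (!a)) = cmul 45 (g a) (cof a) := by decide

theorem prod_eq : cmul 45 (g false) (cmul 45 (g true) 3) = 2 ^ 89 ^^^ 1 := by decide

theorem root_chain [CharP K 2] {x : K} (hx : x ^ 89 = 1) (a : Bool) (h : ev x (g a) = 0) :
    ev (x ^ 3) (g (!a)) = 0 := by
  have h1 := ev_m3 hx 45 0 (g (!a)) (g_lt _)
  rw [m3_eq, ev_cmul x 45 _ _ (g_lt a), h, zero_mul, pow_zero, one_mul] at h1
  exact h1.symm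

theorem root_start [CharP K 2] {x : K} (hx : x ^ 89 = 1) (h1 : x ≠ 1) :
    ∃ a, ev x (g a) = 0 := by
  have h := ev_cmul x 45 (g false) (cmul 45 (g true) 3) (g_lt _)
  rw [ev_cmul x 45 (g true) 3 (g_lt _), prod_eq, ev_xor', ev_pow, ev_one, hx,
    CharTwo.add_self_eq_zero] at h
  have h3 : ev x 3 ≠ 0 := by
    rw [ev_step, if_pos rfl, show (3 / 2 : ℕ) = 1 from rfl, ev_one, mul_one]
    intro h0
    apply h1
    have h2 : (1 : K) + 1 = 0 := CharTwo.add_self_eq_zero 1
    linear_combination h0 - h2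
  rcases mul_eq_zero.1 h.symm with h | h
  · exact ⟨false, h⟩
  · rcases mul_eq_zero.1 h with h | h
    · exact ⟨true, h⟩
    · exact absurd h h3

theorem root_all [CharP K 2] {x : K} (hx : x ^ 89 = 1) (a : Bool) (h : ev x (g a) = 0) (m : ℕ) :
    ev (x ^ (3 ^ m)) (g (if m % 2 = 0 then a else !a)) = 0 := by
  induction m with
  | zero => simpa using h
  | succ m ih =>
    have hx' : (x ^ 3 ^ m) ^ 89 = 1 := by rw [← pow_mul, mul_comm, pow_mul, hx, one_pow]
    have := root_chain hx' _ ih
    rw [← pow_mul, ← pow_succ] at this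
    rcases Nat.mod_two_eq_zero_or_one m with hm | hm
    · rw [if_pos hm] at this
      rw [if_neg (by omega)]
      exact this
    · rw [if_neg (by omega), Bool.not_not] at this
      rw [if_pos (by omega)]
      exact this

end ev

/-! ### Orthogonality -/

section orth

variable {K : Type} [Field K] [CharP K 2]

theorem sum_pow_eq {α : K} (hα : IsPrimitiveRoot α 89) (m : ℕ) :
    ∑ j ∈ Finset.range 89, α ^ (j * m) = if m % 89 = 0 then 1 else 0 := by
  by_cases h : m % 89 = 0
  · rw [if_pos h]
    have h1 : ∀ j ∈ Finset.range 89, α ^ (j * m) = 1 := by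
      intro j _
      obtain ⟨t, rfl⟩ : 89 ∣ m := Nat.dvd_of_mod_eq_zero h
      rw [show j * (89 * t) = 89 * (j * t) by ring, pow_mul, hα.pow_eq_one, one_pow]
    rw [Finset.sum_congr rfl h1]
    simp only [Finset.sum_const, Finset.card_range, nsmul_eq_mul, mul_one]
    have h2 : ((2 : ℕ) : K) = 0 := CharP.cast_eq_zero K 2
    have h3 : ((89 : ℕ) : K) = ((2 : ℕ) : K) * 44 + 1 := by push_cast; ring
    rw [h3, h2]
    ring
  · rw [if_neg h]
    have h1 : α ^ m ≠ 1 := by
      intro h1
      exact h (Nat.mod_eq_zero_of_dvd ((hα.pow_eq_one_iff_dvd m).1 h1))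
    have h2 : (α ^ m - 1) * ∑ j ∈ Finset.range 89, (α ^ m) ^ j = 0 := by
      rw [mul_geom_sum, ← pow_mul, mul_comm, pow_mul, hα.pow_eq_one, one_pow, sub_self]
    have h3 := (mul_eq_zero.1 h2).resolve_left (sub_ne_zero.2 h1)
    rw [← h3]
    refine Finset.sum_congr rfl fun j _ => ?_
    rw [← pow_mul, mul_comm]

theorem cast_val_sum {ι : Type} (s : Finset ι) (f : ι → ZMod 2) :
    ((∑ i ∈ s, f i : ZMod 2) = 0 ↔ ∑ i ∈ s, ((f i).val : K) = 0) := by
  let φ : ZMod 2 →+* K := ZMod.castHom (dvd_refl 2) K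
  have hφ : ∀ z : ZMod 2, φ z = (z.val : K) := by
    intro z
    rw [ZMod.castHom_apply, ZMod.natCast_val]
  have h1 : ∑ i ∈ s, ((f i).val : K) = φ (∑ i ∈ s, f i) := by
    rw [map_sum]
    exact Finset.sum_congr rfl fun i _ => (hφ _).symm
  rw [h1, map_eq_zero]

omit [CharP K 2] in
theorem cast_val_mul (a b : ZMod 2) : ((a * b).val : K) = (a.val : K) * (b.val : K) := by
  revert a b
  have : ∀ a b : ZMod 2, (a * b).val = a.val * b.val := by decide
  intro a b
  rw [this]
  push_cast
  rfl

theorem parseval {α : K} (hα : IsPrimitiveRoot α 89) (c u : ZMod 89 → ZMod 2)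
    (h : ∀ j < 89, ∑ i, ((c i).val : K) * α ^ (j * i.val) = 0 ∨
      ∑ i, ((u i).val : K) * α ^ (j * i.val) = 0) : ∑ i, c i * u (-i) = 0 := by
  rw [cast_val_sum (K := K)]
  have h1 : ∑ j ∈ Finset.range 89, (∑ i : ZMod 89, ((c i).val : K) * α ^ (j * i.val)) *
      ∑ k : ZMod 89, ((u k).val : K) * α ^ (j * k.val) = 0 := by
    refine Finset.sum_eq_zero fun j hj => ?_
    rcases h j (Finset.mem_range.1 hj) with h | h
    · rw [h, zero_mul]
    · rw [h, mul_zero]
  have h2 : ∑ j ∈ Finset.range 89, (∑ i : ZMod 89, ((c i).val : K) * α ^ (j * i.val)) *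
      ∑ k : ZMod 89, ((u k).val : K) * α ^ (j * k.val) =
      ∑ i : ZMod 89, ∑ k : ZMod 89, ((c i).val : K) * ((u k).val : K) *
        ∑ j ∈ Finset.range 89, α ^ (j * (i.val + k.val)) := by
    simp only [Finset.sum_mul_sum]
    rw [Finset.sum_comm]
    refine Finset.sum_congr rfl fun i _ => ?_
    rw [Finset.sum_comm]
    refine Finset.sum_congr rfl fun k _ => ?_
    rw [Finset.mul_sum]
    refine Finset.sum_congr rfl fun j _ => ?_
    rw [mul_add, pow_add]
    ring
  rw [h2] at h1
  rw [← h1]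
  refine Finset.sum_congr rfl fun i _ => ?_
  rw [Finset.sum_eq_single (-i)]
  · rw [sum_pow_eq hα, if_pos, mul_one, cast_val_mul]
    have : ((i.val + (-i).val : ℕ) : ZMod 89) = 0 := by
      push_cast
      rw [ZMod.natCast_zmod_val, ZMod.natCast_zmod_val, add_neg_cancel]
    exact Nat.mod_eq_zero_of_dvd ((ZMod.natCast_eq_zero_iff _ _).1 this)
  · intro k _ hk
    rw [sum_pow_eq hα, if_neg, mul_zero]
    intro h0
    apply hk
    have : ((i.val + k.val : ℕ) : ZMod 89) = 0 :=
      (ZMod.natCast_eq_zero_iff _ _).2 (Nat.dvd_of_mod_eq_zero h0)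
    push_cast at this
    rw [ZMod.natCast_zmod_val, ZMod.natCast_zmod_val] at this
    exact eq_neg_of_add_eq_zero_right this
  · exact fun h => absurd (Finset.mem_univ _) h

theorem eval_code {α : K} {c : ZMod 89 → ZMod 2} (hc : InQR 89 α c) {r : ZMod 89}
    (hr : r ∈ residues 89) : ∑ i, ((c i).val : K) * α ^ (r.val * i.val) = 0 := by
  obtain ⟨q, hq⟩ := hc
  have h1 := congrArg (Polynomial.eval (α ^ r.val)) hq
  rw [Polynomial.eval_mul, genPoly, Polynomial.eval_prod, Polynomial.eval_finsetSum] at h1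
  rw [Finset.prod_eq_zero hr (by simp [CharTwo.add_self_eq_zero]), zero_mul] at h1
  rw [← h1]
  refine Finset.sum_congr rfl fun i _ => ?_
  simp [pow_mul]

set_option maxRecDepth 100000 in
theorem exists_log : ∀ j : Fin 88, ∃ m : Fin 88, 3 ^ (m : ℕ) % 89 = (j : ℕ) + 1 := by decide

theorem sq_mem (m : ℕ) (hm : m % 2 = 0) : ((3 ^ m : ℕ) : ZMod 89) ∈ residues 89 := by
  obtain ⟨t, rfl⟩ : ∃ t, m = t + t := ⟨m / 2, by omega⟩
  rw [residues, Finset.mem_erase, Finset.mem_image]
  refine ⟨?_, ((3 ^ t : ℕ) : ZMod 89), Finset.mem_univ _, ?_⟩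
  · intro h
    have h1 := (ZMod.natCast_eq_zero_iff _ _).1 h
    have h2 := (Nat.Prime.dvd_of_dvd_pow (by norm_num : Nat.Prime 89) h1)
    exact absurd (Nat.le_of_dvd (by norm_num) h2) (by norm_num)
  · push_cast
    rw [pow_add]

/-- Index of a point. -/
def idx : Option (ZMod 89) → ℕ
  | none => 89
  | some i => i.val

/-- The word coded by `v`. -/
def wd (v : ℕ) (x : Option (ZMod 89)) : ZMod 2 := if v.testBit (idx x) then 1 else 0

/-- The word coded by `v` comes from a multiple of `(x + 1) g(!a)` with quotient `q`. -/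
def Cert (a : Bool) (v q : ℕ) : Prop :=
  ∀ k : Fin 89, wd v (some (-k : ZMod 89)) + wd v none =
    if (cmul 45 (g (!a)) (cmul 2 3 q)).testBit k.val then 1 else 0

theorem orth_of_cert {α : K} (hα : IsPrimitiveRoot α 89) (a : Bool) (ha : ev α (g a) = 0)
    {v q : ℕ} (hlt : cmul 45 (g (!a)) (cmul 2 3 q) < 2 ^ 89) (hcert : Cert a v q)
    {c : Option (ZMod 89) → ZMod 2} (hc : InExt 89 α c) : ∑ x, c x * wd v x = 0 := by
  set M := cmul 45 (g (!a)) (cmul 2 3 q) with hM
  set u : ZMod 89 → ZMod 2 := fun k => wd v (some (-k)) + wd v none with hu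
  have hu' : ∀ k : ZMod 89, u k = if M.testBit k.val then 1 else 0 := fun k => hcert k
  have h1 : ∑ i, c (some i) * u (-i) = 0 := by
    refine parseval hα (fun i => c (some i)) u ?_
    intro j hj
    -- value of `u` at powers of `α`
    have hev : ∀ j, ∑ i, ((u i).val : K) * α ^ (j * i.val) = ev (α ^ j) M := by
      intro j
      rw [ev_eq_sum (α ^ j) 89 M hlt, ← Fin.sum_univ_eq_sum_range
        (fun i => if M.testBit i then (α ^ j) ^ i else 0)]
      refine Finset.sum_congr rfl fun i _ => ?_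
      rw [hu' i, pow_mul]
      have e : ZMod.val i = Fin.val i := rfl
      rw [e]
      by_cases h : M.testBit (Fin.val i)
      · rw [if_pos h, if_pos h]
        simp
      · rw [if_neg h, if_neg h]
        simp
    have hM' : ∀ x : K, ev x M = ev x (g (!a)) * ((1 + x) * ev x q) := by
      intro x
      have e3 : ev x 3 = 1 + x := by
        rw [ev_step, if_pos rfl, show (3 / 2 : ℕ) = 1 from rfl, ev_one, mul_one]
      rw [hM, ev_cmul x 45 _ _ (g_lt _), ev_cmul x 2 _ _ (by norm_num), e3]
    rcases Nat.eq_zero_or_pos j with rfl | hj0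
    · right
      rw [hev, hM', pow_zero, CharTwo.add_self_eq_zero]
      simp
    · obtain ⟨⟨m, hm⟩, hmj⟩ := exists_log ⟨j - 1, by omega⟩
      simp only at hmj
      have hjm : 3 ^ m % 89 = j := by omega
      have hαj : α ^ j = α ^ (3 ^ m) := by
        rw [pow_eq_pow_mod (3 ^ m) hα.pow_eq_one, hjm]
      by_cases hpar : m % 2 = 0
      · left
        have hr := sq_mem m hpar
        have hval : ((3 ^ m : ℕ) : ZMod 89).val = j := by
          rw [ZMod.val_natCast, hjm]
        have := eval_code hc.1 hr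
        rw [hval] at this
        exact this
      · right
        rw [hev, hM', hαj]
        have := root_all hα.pow_eq_one a ha m
        rw [if_neg hpar] at this
        rw [this, zero_mul]
  rw [Fintype.sum_option, hc.2, Finset.sum_mul, ← Finset.sum_add_distrib, ← h1]
  refine Finset.sum_congr rfl fun i _ => ?_
  rw [hu]
  simp only [neg_neg]
  ring

end orth

/-! ### The permutation and its cycles -/

/-- The point with a given index. -/
def pt (n : ℕ) : Option (ZMod 89) :=
  if n = 89 then none else some (⟨n % 89, Nat.mod_lt _ (by norm_num)⟩ : Fin 89)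

/-- Index as an element of `Fin 90`. -/
def idx' (x : Option (ZMod 89)) : Fin 90 := Fin.ofNat 90 (idx x)

set_option maxRecDepth 100000 in
theorem bwd_fwd : ∀ i : Option (Fin 89), pt (bwd (idx' (pt (fwd (idx' i))))) = i := by decide

set_option maxRecDepth 100000 in
theorem fwd_bwd : ∀ i : Option (Fin 89), pt (fwd (idx' (pt (bwd (idx' i))))) = i := by decide

/-- The permutation `x ↦ (x + 1)/(10 x)`. -/
def perm : Equiv.Perm (Option (ZMod 89)) where
  toFun x := pt (fwd (idx' x))
  invFun x := pt (bwd (idx' x))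
  left_inv := bwd_fwd
  right_inv := fwd_bwd

/-- First cycle. -/
def lc : ZMod 45 → Option (ZMod 89) := fun i => pt (cycL i)

/-- Second cycle. -/
def rc : ZMod 45 → Option (ZMod 89) := fun i => pt (cycR i)

set_option maxRecDepth 100000 in
theorem fwd_check : ∀ i : Fin 90, (i : ℕ) ≠ 0 → (i : ℕ) ≠ 89 → fwd i < 89 ∧
    (fwd i * (10 * (i : ℕ))) % 89 = ((i : ℕ) + 1) % 89 := by decide

theorem idx'_val (x : Option (ZMod 89)) : ((idx' x : Fin 90) : ℕ) = idx x := by
  have h : idx x < 90 := by
    rcases x with _ | i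
    · simp [idx]
    · have := ZMod.val_lt i
      simp only [idx]
      omega
  simp [idx', Nat.mod_eq_of_lt h]

theorem pt_of_lt {n : ℕ} (h : n < 89) : pt n = some (n : ZMod 89) := by
  unfold pt
  rw [if_neg (by omega)]
  congr 1

instance : Fact (Nat.Prime 89) := ⟨by norm_num⟩

theorem perm_eq_mob (x : Option (ZMod 89)) : perm x = mob 89 1 1 10 0 x := by
  rcases x with _ | i
  · show pt (fwd (idx' none)) = _
    have h : pt (fwd (idx' none)) = some (9 : ZMod 89) := by decide
    rw [h, mob, if_neg (by decide)]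
    congr 1
    rw [one_mul]
    exact eq_inv_of_mul_eq_one_left (by decide)
  · show pt (fwd (idx' (some i))) = _
    by_cases hi : i = 0
    · subst hi
      rw [mob, if_pos (by decide)]
      decide
    · have hv : i.val ≠ 0 := by
        intro h
        exact hi ((ZMod.val_eq_zero i).1 h)
      have hv' := ZMod.val_lt i
      obtain ⟨h1, h2⟩ := fwd_check (idx' (some i)) (by rw [idx'_val]; exact hv)
        (by rw [idx'_val]; exact (by simp only [idx]; omega))
      rw [pt_of_lt h1]
      rw [idx'_val] at h2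
      simp only [idx] at h2
      have h3 : ((fwd (idx' (some i)) * (10 * i.val) : ℕ) : ZMod 89) = ((i.val + 1 : ℕ) : ZMod 89) :=
        (ZMod.natCast_eq_natCast_iff' _ _ _).2 h2
      push_cast at h3
      rw [ZMod.natCast_zmod_val] at h3
      have h10 : (10 : ZMod 89) * i ≠ 0 := mul_ne_zero (by decide) hi
      rw [mob, if_neg (by rw [add_zero]; exact h10), add_zero, one_mul]
      congr 1
      rw [eq_mul_inv_iff_mul_eq₀ h10]
      exact h3

theorem inPSL : InPSL 89 perm := by
  refine ⟨1, 1, 10, 0, by decide, ⟨41, by decide⟩, perm_eq_mob⟩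

set_option maxRecDepth 100000 in
theorem twoCycles : TwoCycles 45 perm lc rc := by
  have h1 : ∀ i j : Fin 45, pt (cycL i) = pt (cycL j) → i = j := by decide
  have h2 : ∀ i j : Fin 45, pt (cycR i) = pt (cycR j) → i = j := by decide
  have h3 : ∀ i j : Fin 45, pt (cycL i) ≠ pt (cycR j) := by decide
  have h4 : ∀ i : Fin 45, pt (fwd (idx' (pt (cycL i)))) = pt (cycL (i + 1)) := by decide
  have h5 : ∀ i : Fin 45, pt (fwd (idx' (pt (cycR i)))) = pt (cycR (i + 1)) := by decide
  exact ⟨fun i j => h1 i j, fun i j => h2 i j, h3, h4, h5⟩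

/-- If a word supported on the first of two cycles is orthogonal, with all its shifts, to `c`,
then the circulant of `c` on that cycle is singular. -/
theorem singular {l r : ZMod 45 → Option (ZMod 89)} {π : Equiv.Perm (Option (ZMod 89))}
    (hl : Function.Injective l) (hr : Function.Injective r) (hlr : ∀ i j, l i ≠ r j)
    (c v : Option (ZMod 89) → ZMod 2) (hv : ∃ j, v (l j) ≠ 0) (hv0 : ∀ j, v (r j) = 0)
    (horth : ∀ m : ℕ, ∑ x, c x * v ((π ^ m) x) = 0) : ¬ IsUnit (array π c l) := by
  have hbij : Function.Bijective (Sum.elim l r) := by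
    rw [Fintype.bijective_iff_injective_and_card]
    refine ⟨hl.sumElim hr hlr, ?_⟩
    simp [ZMod.card]
  rw [Matrix.isUnit_iff_isUnit_det]
  have hdet : (array π c l).det = 0 := by
    rw [← Matrix.exists_mulVec_eq_zero_iff]
    refine ⟨fun j => v (l j), ?_, ?_⟩
    · obtain ⟨j, hj⟩ := hv
      exact fun h => hj (congrFun h j)
    · ext m
      rw [Matrix.mulVec, dotProduct]
      simp only [array, Pi.zero_apply]
      rw [← horth m.val, ← Equiv.sum_comp (π ^ m.val)⁻¹, ← hbij.sum_comp]
      rw [Fintype.sum_sum_type]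
      simp only [Sum.elim_inl, Sum.elim_inr]
      have h1 : ∀ x, (π ^ m.val) ((π ^ m.val)⁻¹ x) = x := fun x =>
        Equiv.apply_symm_apply _ _
      simp only [h1, hv0, mul_zero, Finset.sum_const_zero, add_zero]
  rw [hdet]
  simp

theorem shift_pow {s : ℕ} [NeZero s] (w : Fin s → ℕ)
    (h : ∀ i x, wd (w i) (perm x) = wd (w (i + 1)) x) (m : ℕ) :
    ∀ i : Fin s, ∃ j : Fin s, ∀ x, wd (w i) ((perm ^ m) x) = wd (w j) x := by
  induction m with
  | zero => exact fun i => ⟨i, fun x => rfl⟩
  | succ m ih =>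
    intro i
    obtain ⟨j, hj⟩ := ih i
    refine ⟨j + 1, fun x => ?_⟩
    rw [pow_succ, Equiv.Perm.mul_apply, hj, h]

set_option maxRecDepth 100000 in
theorem shift0l : ∀ (i : Fin 3) (x : Option (Fin 89)),
    wd (w0l i) (pt (fwd (idx' x))) = wd (w0l (i + 1)) x := by decide

set_option maxRecDepth 100000 in
theorem shift0r : ∀ (i : Fin 5) (x : Option (Fin 89)),
    wd (w0r i) (pt (fwd (idx' x))) = wd (w0r (i + 1)) x := by decide

set_option maxRecDepth 100000 in
theorem shift1l : ∀ (i : Fin 5) (x : Option (Fin 89)),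
    wd (w1l i) (pt (fwd (idx' x))) = wd (w1l (i + 1)) x := by decide

set_option maxRecDepth 100000 in
theorem shift1r : ∀ (i : Fin 3) (x : Option (Fin 89)),
    wd (w1r i) (pt (fwd (idx' x))) = wd (w1r (i + 1)) x := by decide

set_option maxRecDepth 100000 in
theorem supp0l : ∀ j : Fin 45, wd (w0l 0) (pt (cycR j)) = 0 := by decide

set_option maxRecDepth 100000 in
theorem supp0r : ∀ j : Fin 45, wd (w0r 0) (pt (cycL j)) = 0 := by decide

set_option maxRecDepth 100000 in
theorem supp1l : ∀ j : Fin 45, wd (w1l 0) (pt (cycR j)) = 0 := by decide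

set_option maxRecDepth 100000 in
theorem supp1r : ∀ j : Fin 45, wd (w1r 0) (pt (cycL j)) = 0 := by decide

set_option maxRecDepth 100000 in
theorem ne0l : ∃ j : Fin 45, wd (w0l 0) (pt (cycL j)) ≠ 0 := by decide

set_option maxRecDepth 100000 in
theorem ne0r : ∃ j : Fin 45, wd (w0r 0) (pt (cycR j)) ≠ 0 := by decide

set_option maxRecDepth 100000 in
theorem ne1l : ∃ j : Fin 45, wd (w1l 0) (pt (cycL j)) ≠ 0 := by decide

set_option maxRecDepth 100000 in
theorem ne1r : ∃ j : Fin 45, wd (w1r 0) (pt (cycR j)) ≠ 0 := by decide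

theorem lt0l : ∀ i : Fin 3, cmul 45 (g (!false)) (cmul 2 3 (q0l i)) < 2 ^ 89 := by decide

theorem lt0r : ∀ i : Fin 5, cmul 45 (g (!false)) (cmul 2 3 (q0r i)) < 2 ^ 89 := by decide

theorem lt1l : ∀ i : Fin 5, cmul 45 (g (!true)) (cmul 2 3 (q1l i)) < 2 ^ 89 := by decide

theorem lt1r : ∀ i : Fin 3, cmul 45 (g (!true)) (cmul 2 3 (q1r i)) < 2 ^ 89 := by decide

set_option maxRecDepth 100000 in
theorem cert0l : ∀ i : Fin 3, Cert false (w0l i) (q0l i) := by unfold Cert; decide

set_option maxRecDepth 100000 in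
theorem cert0r : ∀ i : Fin 5, Cert false (w0r i) (q0r i) := by unfold Cert; decide

set_option maxRecDepth 100000 in
theorem cert1l : ∀ i : Fin 5, Cert true (w1l i) (q1l i) := by unfold Cert; decide

set_option maxRecDepth 100000 in
theorem cert1r : ∀ i : Fin 3, Cert true (w1r i) (q1r i) := by unfold Cert; decide

/-- For `p = 89` there is `π` in `PSL₂(89)` with two disjoint `45`-cycles such that, for every
field `K` of characteristic two and every primitive `89`-th root of unity `α` of `K`, both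
circulants of every codeword of the extended quadratic residue code are singular; and such `K`
and `α` exist. -/
theorem result :
    (∃ (K : Type) (_ : Field K) (_ : CharP K 2) (α : K), IsPrimitiveRoot α 89) ∧
    ∃ (π : Equiv.Perm (Option (ZMod 89))) (l r : ZMod 45 → Option (ZMod 89)),
      InPSL 89 π ∧ TwoCycles 45 π l r ∧
      ∀ (K : Type) [Field K] [CharP K 2] (α : K), IsPrimitiveRoot α 89 →
        ∀ c : Option (ZMod 89) → ZMod 2, InExt 89 α c →
          ¬ IsUnit (array π c l) ∧ ¬ IsUnit (array π c r) := by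
  refine ⟨?_, perm, lc, rc, inPSL, twoCycles, ?_⟩
  · refine ⟨AlgebraicClosure (ZMod 2), inferInstance, inferInstance, ?_⟩
    haveI : NeZero ((89 : ℕ) : AlgebraicClosure (ZMod 2)) := by
      refine ⟨?_⟩
      rw [Ne, CharP.cast_eq_zero_iff (AlgebraicClosure (ZMod 2)) 2]
      norm_num
    exact HasEnoughRootsOfUnity.exists_primitiveRoot _ 89
  · intro K _ _ α hα c hc
    have hne : α ≠ 1 := hα.ne_one (by norm_num)
    obtain ⟨a, ha⟩ := root_start hα.pow_eq_one hne
    obtain ⟨t1, t2, t3, -, -⟩ := twoCycles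
    cases a with
    | false =>
      constructor
      · refine singular t1 t2 t3 c (wd (w0l 0)) ne0l supp0l fun m => ?_
        obtain ⟨j, hj⟩ := shift_pow w0l shift0l m 0
        simp only [hj]
        exact orth_of_cert hα false ha (lt0l j) (cert0l j) hc
      · refine singular t2 t1 (fun i j => (t3 j i).symm) c (wd (w0r 0)) ne0r supp0r fun m => ?_
        obtain ⟨j, hj⟩ := shift_pow w0r shift0r m 0
        simp only [hj]
        exact orth_of_cert hα false ha (lt0r j) (cert0r j) hc
    | true =>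
      constructor
      · refine singular t1 t2 t3 c (wd (w1l 0)) ne1l supp1l fun m => ?_
        obtain ⟨j, hj⟩ := shift_pow w1l shift1l m 0
        simp only [hj]
        exact orth_of_cert hα true ha (lt1l j) (cert1l j) hc
      · refine singular t2 t1 (fun i j => (t3 j i).symm) c (wd (w1r 0)) ne1r supp1r fun m => ?_
        obtain ⟨j, hj⟩ := shift_pow w1r shift1r m 0
        simp only [hj]
        exact orth_of_cert hα true ha (lt1r j) (cert1r j) hc

end Pool.Agent.Results.MP_6ea9cb_lc.BothSingular
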